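import Pool.Agent.H33.CG.Cog

/-!
Claim A (helper44): roots of `P4`-free sets with the midpoint property.
-/

namespace Pool.Agent.H33.CG

variable {V : Type*} [DecidableEq V]

/-- Closed pairs of `D` have midpoints in `D`. -/
def PairsOn (M : V → V → ZMod 2) (D : Finset V) : Prop :=
  ∀ u ∈ D, ∀ v ∈ D, M u u = M v v → M u v ≠ M u u →
    ∃ g ∈ D, M g g ≠ M u u ∧ M g u = M g g ∧ M g v = M g g ∧
      ∀ x ∈ D, M u x = M v x → M g x = M u x

/-- No induced path on four points in `D`. -/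
def NoP4 (M : V → V → ZMod 2) (D : Finset V) : Prop :=
  ∀ a ∈ D, ∀ b ∈ D, ∀ c ∈ D, ∀ d ∈ D,
    ¬ (M a b = 1 ∧ M b c = 1 ∧ M c d = 1 ∧ M a c = 0 ∧ M a d = 0 ∧ M b d = 0)

/-- `S` is a union of `s`-components of `D`. -/
def Cl (M : V → V → ZMod 2) (s : ZMod 2) (D S : Finset V) : Prop :=
  ∀ a ∈ S, ∀ b ∈ D, b ∉ S → M a b = s

theorem ne_eq_of_ne {a b s : ZMod 2} (ha : a ≠ s) (hb : b ≠ s) : a = b := by
  revert a b s; decide

theorem exists_comp (M : V → V → ZMod 2) (hM : ∀ x y, M x y = M y x) (s : ZMod 2)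
    (D : Finset V) (x : V) (hx : x ∈ D) :
    ∃ K ⊆ D, x ∈ K ∧ Cl M s D K ∧ ∀ T ⊆ K, T.Nonempty → Cl M s K T → T = K := by
  classical
  obtain ⟨K, hK, hmin⟩ : ∃ K, (K ⊆ D ∧ x ∈ K ∧ Cl M s D K) ∧
      ∀ T, (T ⊆ D ∧ x ∈ T ∧ Cl M s D T) → K.card ≤ T.card := by
    have hex : ∃ n, ∃ K, (K ⊆ D ∧ x ∈ K ∧ Cl M s D K) ∧ K.card = n :=
      ⟨_, D, ⟨Finset.Subset.refl _, hx, fun a _ b hb hb' => absurd hb hb'⟩, rfl⟩
    obtain ⟨K, hK, hc⟩ := Nat.find_spec hex
    refine ⟨K, hK, fun T hT => ?_⟩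
    rw [hc]
    exact Nat.find_min' hex ⟨T, hT, rfl⟩
  obtain ⟨hKD, hxK, hcl⟩ := hK
  refine ⟨K, hKD, hxK, hcl, fun T hTK hTne hTcl => ?_⟩
  by_cases hxT : x ∈ T
  · have h1 : Cl M s D T := by
      intro a ha b hb hbT
      by_cases hbK : b ∈ K
      · exact hTcl a ha b hbK hbT
      · exact hcl a (hTK ha) b hb hbK
    exact Finset.eq_of_subset_of_card_le hTK (hmin T ⟨hTK.trans hKD, hxT, h1⟩)
  · exfalso
    have h1 : Cl M s D (K \ T) := by
      intro a ha b hb hbT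
      have haK := (Finset.mem_sdiff.1 ha).1
      have haT := (Finset.mem_sdiff.1 ha).2
      by_cases hbK : b ∈ K
      · have hbT' : b ∈ T := by
          by_contra hc
          exact hbT (Finset.mem_sdiff.2 ⟨hbK, hc⟩)
        rw [hM]
        exact hTcl b hbT' a haK haT
      · exact hcl a haK b hb hbK
    have h2 := hmin (K \ T) ⟨Finset.sdiff_subset.trans hKD, Finset.mem_sdiff.2 ⟨hxK, hxT⟩, h1⟩
    have h3 : (K \ T).card < K.card := by
      apply Finset.card_lt_card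
      refine ⟨Finset.sdiff_subset, fun hc => ?_⟩
      obtain ⟨t, ht⟩ := hTne
      exact (Finset.mem_sdiff.1 (hc (hTK ht))).2 ht
    omega

theorem split (M : V → V → ZMod 2) (hM : ∀ x y, M x y = M y x) (s : ZMod 2)
    (K : Finset V) (h4 : NoP4 M K) (h2 : 2 ≤ K.card)
    (hconn : ∀ T ⊆ K, T.Nonempty → Cl M s K T → T = K) :
    ∃ S ⊆ K, S.Nonempty ∧ (K \ S).Nonempty ∧ ∀ a ∈ S, ∀ b ∈ K \ S, M a b ≠ s := by
  classical
  have z2 : ∀ a : ZMod 2, a ≠ 1 ↔ a = 0 := by decide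
  obtain ⟨S, hS, h1, h1', h3⟩ := seinsche (fun x y => M x y = 1)
    (fun x y h => by rw [hM]; exact h) K (by
      intro a ha b hb c hc d hd hh
      obtain ⟨e1, e2, e3, e4, e5, e6⟩ := hh
      exact h4 a ha b hb c hc d hd ⟨e1, e2, e3, (z2 _).1 e4, (z2 _).1 e5, (z2 _).1 e6⟩) h2
  refine ⟨S, hS, h1, h1', ?_⟩
  have hcon : ∀ t : ZMod 2, (∀ a ∈ S, ∀ b ∈ K \ S, M a b = t) → ∀ a ∈ S, ∀ b ∈ K \ S,
      M a b ≠ s := by
    intro t ht a ha b hb hab
    have hts : t = s := by rw [← ht a ha b hb]; exact hab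
    have : S = K := hconn S hS h1 (by
      intro a' ha' b' hb' hb''
      rw [← hts]
      exact ht a' ha' b' (Finset.mem_sdiff.2 ⟨hb', hb''⟩))
    obtain ⟨u, hu⟩ := h1'
    rw [this] at hu
    exact (Finset.mem_sdiff.1 hu).2 (Finset.mem_sdiff.1 hu).1
  rcases h3 with h3 | h3
  · exact hcon 0 (fun a ha b hb => (z2 _).1 (h3 a ha b hb))
  · exact hcon 1 h3

theorem pairs_comp (M : V → V → ZMod 2) (hM : ∀ x y, M x y = M y x) (s : ZMod 2)
    (D K : Finset V) (hK : K ⊆ D) (hP : PairsOn M D) (hcl : Cl M s D K)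
    (S : Finset V) (hS : S ⊆ K) (h1 : S.Nonempty) (h1' : (K \ S).Nonempty)
    (h3 : ∀ a ∈ S, ∀ b ∈ K \ S, M a b ≠ s) : PairsOn M K := by
  classical
  intro u hu v hv huv hne
  obtain ⟨g, hgD, g1, g2, g3, g4⟩ := hP u (hK hu) v (hK hv) huv hne
  refine ⟨g, ?_, g1, g2, g3, fun x hx => g4 x (hK hx)⟩
  by_contra hgK
  -- g outside K: M w g = s for all w in K
  have hw : ∀ w ∈ K, M g w = s := fun w hw => by rw [hM]; exact hcl w hw g hgD hgK
  have hgg : M g g = s := by rw [← g2]; exact hw u hu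
  have huu : M u u ≠ s := by rw [← hgg]; exact g1.symm
  -- M u v = s
  have huvs : M u v = s := by
    by_contra hc
    exact hne (ne_eq_of_ne hc huu)
  -- u and v on the same side
  have key : ∀ w ∈ K, M u w ≠ s → M v w ≠ s → False := by
    intro w hwK h h'
    have := g4 w (hK hwK) (ne_eq_of_ne h h')
    rw [hw w hwK] at this
    exact h this.symm
  by_cases huS : u ∈ S
  · by_cases hvS : v ∈ S
    · obtain ⟨w, hw'⟩ := h1'
      exact key w (Finset.mem_sdiff.1 hw').1 (h3 u huS w hw') (h3 v hvS w hw')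
    · exact h3 u huS v (Finset.mem_sdiff.2 ⟨hv, hvS⟩) huvs
  · by_cases hvS : v ∈ S
    · refine h3 v hvS u (Finset.mem_sdiff.2 ⟨hu, huS⟩) ?_
      rw [hM]; exact huvs
    · obtain ⟨w, hw'⟩ := h1
      refine key w (hS hw') ?_ ?_
      · rw [hM]; exact h3 w hw' u (Finset.mem_sdiff.2 ⟨hu, huS⟩)
      · rw [hM]; exact h3 w hw' v (Finset.mem_sdiff.2 ⟨hv, hvS⟩)

/-- The conclusion of the component version. -/
def Full (M : V → V → ZMod 2) (s : ZMod 2) (D : Finset V) (x : V) : Prop :=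
  ∃ f ∈ D, M f f ≠ s ∧ M f x ≠ s ∧ ∀ z ∈ D, M f z ≠ s → ∀ z' ∈ D, M f z' = s → M z z' = s

theorem NoP4.mono {M : V → V → ZMod 2} {D K : Finset V} (h : NoP4 M D) (hK : K ⊆ D) :
    NoP4 M K :=
  fun a ha b hb c hc d hd => h a (hK ha) b (hK hb) c (hK hc) d (hK hd)

theorem full_of_proper (M : V → V → ZMod 2) (hM : ∀ x y, M x y = M y x) (s : ZMod 2)
    (D : Finset V) (h4 : NoP4 M D) (hP : PairsOn M D)
    (ih : ∀ K : Finset V, K.card < D.card → NoP4 M K → PairsOn M K → ∀ t : ZMod 2,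
      ∀ x ∈ K, (∃ y ∈ K, M x y ≠ t) → Full M t K x)
    (x : V) (hxy : ∃ y ∈ D, M x y ≠ s)
    (K : Finset V) (hKD : K ⊆ D) (hxK : x ∈ K) (hcl : Cl M s D K)
    (hconn : ∀ T ⊆ K, T.Nonempty → Cl M s K T → T = K) (hne : K ≠ D) : Full M s D x := by
  classical
  by_cases h2 : 2 ≤ K.card
  · obtain ⟨S, hS, h1, h1', h3⟩ := split M hM s K (h4.mono hKD) h2 hconn
    have hPK := pairs_comp M hM s D K hKD hP hcl S hS h1 h1' h3
    have hlt : K.card < D.card :=
      Finset.card_lt_card ⟨hKD, fun hc => hne (Finset.Subset.antisymm hKD hc)⟩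
    have hy : ∃ y ∈ K, M x y ≠ s := by
      by_cases hxS : x ∈ S
      · obtain ⟨w, hw⟩ := h1'
        exact ⟨w, (Finset.mem_sdiff.1 hw).1, h3 x hxS w hw⟩
      · obtain ⟨w, hw⟩ := h1
        refine ⟨w, hS hw, ?_⟩
        rw [hM]
        exact h3 w hw x (Finset.mem_sdiff.2 ⟨hxK, hxS⟩)
    obtain ⟨f, hfK, f1, f2, f3⟩ := ih K hlt (h4.mono hKD) hPK s x hxK hy
    have hfull : K.filter (fun z => M f z ≠ s) = K := by
      apply hconn
      · exact Finset.filter_subset _ _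
      · exact ⟨f, Finset.mem_filter.2 ⟨hfK, f1⟩⟩
      · intro a ha b hb hb'
        have ha' := Finset.mem_filter.1 ha
        refine f3 a ha'.1 ha'.2 b hb ?_
        by_contra hc
        exact hb' (Finset.mem_filter.2 ⟨hb, hc⟩)
    have hfK' : ∀ z ∈ K, M f z ≠ s := fun z hz => by
      rw [← hfull] at hz
      exact (Finset.mem_filter.1 hz).2
    refine ⟨f, hKD hfK, f1, f2, fun z hz hfz z' hz' hfz' => ?_⟩
    have hzK : z ∈ K := by
      by_contra hc
      exact hfz (hcl f hfK z hz hc)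
    have hz'K : z' ∉ K := fun hc => hfK' z' hc hfz'
    exact hcl z hzK z' hz' hz'K
  · -- K = {x}
    have hK1 : K = {x} := by
      have : K.card = 1 := by
        have := Finset.card_pos.2 ⟨x, hxK⟩
        omega
      obtain ⟨u, hu⟩ := Finset.card_eq_one.1 this
      rw [hu] at hxK ⊢
      rw [Finset.mem_singleton] at hxK
      rw [hxK]
    obtain ⟨y, hy, hxy'⟩ := hxy
    have hyx : y = x := by
      by_contra hc
      exact hxy' (hcl x hxK y hy (by rw [hK1, Finset.mem_singleton]; exact hc))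
    subst hyx
    refine ⟨y, hy, hxy', hxy', fun z hz hfz z' hz' hfz' => ?_⟩
    have hzy : z = y := by
      by_contra hc
      exact hfz (hcl y hxK z hz (by rw [hK1, Finset.mem_singleton]; exact hc))
    rw [hzy]; exact hfz'

/-- From the component version to a root: no hypothesis on smaller sets. -/
theorem root_of_full (M : V → V → ZMod 2) (hM : ∀ x y, M x y = M y x) (t : ZMod 2)
    (D : Finset V) (hP : PairsOn M D) (hne : D.Nonempty)
    (hF : ∀ x ∈ D, (∃ y ∈ D, M x y ≠ t) → Full M t D x) :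
    (∃ v ∈ D, ∀ x ∈ D, M v x = t) ∨ (∃ v ∈ D, ∀ x ∈ D, M v x ≠ t) := by
  classical
  by_cases h0 : ∃ v ∈ D, ∀ x ∈ D, M v x = t
  · exact Or.inl h0
  right
  push Not at h0
  obtain ⟨x1, hx1⟩ := hne
  obtain ⟨f1, hf1, a1, b1, c1⟩ := hF x1 hx1 (h0 x1 hx1)
  by_contra hno
  push Not at hno
  obtain ⟨x2, hx2, hx2'⟩ := hno f1 hf1
  obtain ⟨f2, hf2, a2, b2, c2⟩ := hF x2 hx2 (h0 x2 hx2)
  -- f2 not in N(f1)
  have hf12 : M f1 f2 = t := by
    by_contra hc
    exact b2 (c1 f2 hf2 hc x2 hx2 hx2')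
  have hl : M f1 f1 = M f2 f2 := ne_eq_of_ne a1 a2
  obtain ⟨g, hg, g1, g2, g3, g4⟩ := hP f1 hf1 f2 hf2 hl (by rw [hf12]; exact fun h => a1 h.symm)
  have hgg : M g g = t := by
    by_contra hc
    exact g1 (ne_eq_of_ne hc a1)
  have hgf1 : M f1 g = t := by rw [hM, g2]; exact hgg
  have hgf2 : M f2 g = t := by rw [hM, g3]; exact hgg
  obtain ⟨y, hy, hgy⟩ := h0 g hg
  apply hgy
  by_cases h1 : M f1 y = t
  · by_cases h2 : M f2 y = t
    · rw [g4 y hy (by rw [h1, h2]), h1]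
    · rw [hM]; exact c2 y hy h2 g hg hgf2
  · rw [hM]; exact c1 y hy h1 g hg hgf1

/-- The component version of Claim A, for both values. -/
theorem full_all (M : V → V → ZMod 2) (hM : ∀ x y, M x y = M y x) :
    ∀ (n : ℕ) (D : Finset V), D.card = n → NoP4 M D → PairsOn M D → ∀ s : ZMod 2,
      ∀ x ∈ D, (∃ y ∈ D, M x y ≠ s) → Full M s D x := by
  classical
  intro n
  induction n using Nat.strong_induction_on with
  | _ n ihn =>
  intro D hn h4 hP s x hx hxy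
  have ih : ∀ K : Finset V, K.card < D.card → NoP4 M K → PairsOn M K → ∀ t : ZMod 2,
      ∀ x ∈ K, (∃ y ∈ K, M x y ≠ t) → Full M t K x :=
    fun K hK h4K hPK => ihn K.card (by omega) K rfl h4K hPK
  obtain ⟨K, hKD, hxK, hcl, hconn⟩ := exists_comp M hM s D x hx
  by_cases hne : K = D
  · subst hne
    by_cases h2 : 2 ≤ K.card
    · obtain ⟨S, hS, h1, h1', h3⟩ := split M hM s K h4 h2 hconn
      -- the other value
      obtain ⟨a0, ha0⟩ := h1
      obtain ⟨b0, hb0⟩ := h1'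
      set t : ZMod 2 := M a0 b0 with ht
      have hts : t ≠ s := h3 a0 ha0 b0 hb0
      have hSt : ∀ a ∈ S, ∀ b ∈ K \ S, M a b = t := fun a ha b hb =>
        ne_eq_of_ne (h3 a ha b hb) hts
      have hclS : Cl M t K S := fun a ha b hb hb' => hSt a ha b (Finset.mem_sdiff.2 ⟨hb, hb'⟩)
      -- every t-component is proper
      have hFt : ∀ x ∈ K, (∃ y ∈ K, M x y ≠ t) → Full M t K x := by
        intro x' hx' hxy'
        obtain ⟨K', hK'D, hxK', hcl', hconn'⟩ := exists_comp M hM t K x' hx'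
        refine full_of_proper M hM t K h4 hP ih x' hxy' K' hK'D hxK' hcl' hconn' ?_
        intro hc
        rw [hc] at hconn'
        have := hconn' S hS ⟨a0, ha0⟩ hclS
        rw [this] at hb0
        exact (Finset.mem_sdiff.1 hb0).2 (Finset.mem_sdiff.1 hb0).1
      rcases root_of_full M hM t K hP ⟨x, hx⟩ hFt with ⟨v, hv, hv'⟩ | ⟨v, hv, hv'⟩
      · refine ⟨v, hv, ?_, ?_, fun z hz hfz z' hz' hfz' => ?_⟩
        · rw [hv' v hv]; exact hts
        · rw [hv' x hx]; exact hts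
        · exact absurd ((hv' z' hz').symm.trans hfz') hts
      · exfalso
        by_cases hvS : v ∈ S
        · exact hv' b0 (Finset.mem_sdiff.1 hb0).1 (hSt v hvS b0 hb0)
        · refine hv' a0 (hS ha0) ?_
          rw [hM]
          exact hSt a0 ha0 v (Finset.mem_sdiff.2 ⟨hv, hvS⟩)
    · -- K = {x}
      have hc1 : K.card = 1 := by
        have := Finset.card_pos.2 ⟨x, hxK⟩
        omega
      obtain ⟨u, hu⟩ := Finset.card_eq_one.1 hc1
      have hxu : x = u := by rw [hu, Finset.mem_singleton] at hxK; exact hxK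
      obtain ⟨y, hy, hxy'⟩ := hxy
      have hyu : y = u := by rw [hu, Finset.mem_singleton] at hy; exact hy
      rw [hyu, ← hxu] at hxy'
      refine ⟨x, hx, hxy', hxy', fun z hz hfz z' hz' hfz' => ?_⟩
      have hzu : z = u := by rw [hu, Finset.mem_singleton] at hz; exact hz
      rw [hzu, ← hxu]; exact hfz'
  · exact full_of_proper M hM s D h4 hP ih x hxy K hKD hxK hcl hconn hne

/-- Component version of Claim A: `N(f) ∩ D` is a union of components, contains `x` and `f` is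
full in it. -/
theorem claimA_comp (M : V → V → ZMod 2) (hM : ∀ x y, M x y = M y x) (D : Finset V)
    (h4 : NoP4 M D) (hP : PairsOn M D) (x : V) (hx : x ∈ D) (hxy : ∃ y ∈ D, M x y = 1) :
    ∃ f ∈ D, M f f = 1 ∧ M f x = 1 ∧
      ∀ z ∈ D, M f z = 1 → ∀ z' ∈ D, M f z' = 0 → M z z' = 0 := by
  have z2 : ∀ a : ZMod 2, a ≠ 0 ↔ a = 1 := by decide
  obtain ⟨y, hy, hxy⟩ := hxy
  obtain ⟨f, hf, f1, f2, f3⟩ := full_all M hM D.card D rfl h4 hP 0 x hx
    ⟨y, hy, by rw [hxy]; decide⟩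
  exact ⟨f, hf, (z2 _).1 f1, (z2 _).1 f2, fun z hz h z' hz' h' =>
    f3 z hz ((z2 _).2 h) z' hz' h'⟩

/-- Claim A: a root. -/
theorem claimA (M : V → V → ZMod 2) (hM : ∀ x y, M x y = M y x) (D : Finset V)
    (h4 : NoP4 M D) (hP : PairsOn M D) (hne : D.Nonempty) :
    (∃ v ∈ D, ∀ x ∈ D, M v x = 0) ∨ (∃ v ∈ D, ∀ x ∈ D, M v x = 1) := by
  have z2 : ∀ a : ZMod 2, a ≠ 0 ↔ a = 1 := by decide
  rcases root_of_full M hM 0 D hP hne
    (fun x hx h => full_all M hM D.card D rfl h4 hP 0 x hx h) with h | ⟨v, hv, h⟩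
  · exact Or.inl h
  · exact Or.inr ⟨v, hv, fun x hx => (z2 _).1 (h x hx)⟩

end Pool.Agent.H33.CG
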