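import Mathlib

/-!
Seinsche's theorem in Finset form: a symmetric relation without induced `P4` on a finite set with
at least two points splits into two nonempty parts with no edges or all edges between them; and
the existence of twins.
-/

namespace Pool.Agent.H33.CG

variable {V : Type*} [DecidableEq V]

/-- The one-step extension: `D` disconnected (`S0` closed) and a new vertex `v`. -/
theorem step (A : V → V → Prop) (hs : ∀ x y, A x y → A y x) (D : Finset V) (v : V) (hv : v ∉ D)
    (h4 : ∀ a ∈ insert v D, ∀ b ∈ insert v D, ∀ c ∈ insert v D, ∀ d ∈ insert v D,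
      ¬ (A a b ∧ A b c ∧ A c d ∧ ¬ A a c ∧ ¬ A a d ∧ ¬ A b d))
    (S0 : Finset V) (hS0 : S0 ⊆ D) (hne : S0.Nonempty) (hne' : (D \ S0).Nonempty)
    (hcl : ∀ x ∈ S0, ∀ y ∈ D \ S0, ¬ A x y) :
    ∃ S ⊆ insert v D, S.Nonempty ∧ (insert v D \ S).Nonempty ∧
      ((∀ x ∈ S, ∀ y ∈ insert v D \ S, ¬ A x y) ∨ (∀ x ∈ S, ∀ y ∈ insert v D \ S, A x y)) := by
  classical
  by_cases hall : ∀ x ∈ D, A v x
  · refine ⟨{v}, by simp, by simp, ?_, Or.inr ?_⟩
    · obtain ⟨x, hx⟩ := hne
      refine ⟨x, ?_⟩
      have hxD := hS0 hx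
      rw [Finset.mem_sdiff, Finset.mem_insert, Finset.mem_singleton]
      exact ⟨Or.inr hxD, fun h => hv (h ▸ hxD)⟩
    · intro x hx y hy
      rw [Finset.mem_singleton] at hx
      rw [Finset.mem_sdiff, Finset.mem_insert, Finset.mem_singleton] at hy
      subst hx
      rcases hy.1 with h | h
      · exact absurd h hy.2
      · exact hall y h
  · push Not at hall
    obtain ⟨x0, hx0, hvx0⟩ := hall
    -- closed subsets of D containing x0
    let P : Finset V → Prop := fun S => S ⊆ D ∧ x0 ∈ S ∧ ∀ x ∈ S, ∀ y ∈ D \ S, ¬ A x y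
    have hex : ∃ S, P S ∧ (D \ S).Nonempty := by
      by_cases hx : x0 ∈ S0
      · exact ⟨S0, ⟨hS0, hx, hcl⟩, hne'⟩
      · refine ⟨D \ S0, ⟨Finset.sdiff_subset, Finset.mem_sdiff.2 ⟨hx0, hx⟩, ?_⟩, ?_⟩
        · intro x hx' y hy h
          have hy1 := (Finset.mem_sdiff.1 hy).1
          have hy2 := (Finset.mem_sdiff.1 hy).2
          have : y ∈ S0 := by
            by_contra hc
            exact hy2 (Finset.mem_sdiff.2 ⟨hy1, hc⟩)
          exact hcl y this x hx' (hs _ _ h)
        · obtain ⟨z, hz⟩ := hne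
          refine ⟨z, Finset.mem_sdiff.2 ⟨hS0 hz, ?_⟩⟩
          intro hc
          exact (Finset.mem_sdiff.1 hc).2 hz
    obtain ⟨S1, hPS1, hne1⟩ := hex
    -- minimal one
    obtain ⟨S, hSP, hmin⟩ : ∃ S, (P S ∧ (D \ S).Nonempty) ∧
        ∀ T, (P T ∧ (D \ T).Nonempty) → S.card ≤ T.card := by
      have : ∃ n, ∃ S, (P S ∧ (D \ S).Nonempty) ∧ S.card = n := ⟨_, S1, ⟨hPS1, hne1⟩, rfl⟩
      obtain ⟨S, hS, hc⟩ := Nat.find_spec this
      refine ⟨S, hS, fun T hT => ?_⟩
      rw [hc]
      exact Nat.find_min' this ⟨T, hT, rfl⟩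
    obtain ⟨⟨hSD, hx0S, hScl⟩, hSne⟩ := hSP
    by_cases h1 : ∃ y ∈ S, A v y
    · by_cases h2 : ∃ w ∈ D \ S, A v w
      · exfalso
        obtain ⟨w, hw, hvw⟩ := h2
        -- an edge between S ∩ N and S \ N
        have hedge : ∃ y ∈ S, ∃ z ∈ S, A v y ∧ ¬ A v z ∧ A y z := by
          by_contra hno
          push Not at hno
          let T := S.filter (fun z => ¬ A v z)
          have hTS : T ⊆ S := Finset.filter_subset _ _
          have hPT : P T ∧ (D \ T).Nonempty := by
            refine ⟨⟨hTS.trans hSD, Finset.mem_filter.2 ⟨hx0S, hvx0⟩, ?_⟩, ?_⟩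
            · intro z hz y hy h
              have hz' := Finset.mem_filter.1 hz
              by_cases hyS : y ∈ S
              · have hvy : A v y := by
                  by_contra hc
                  exact (Finset.mem_sdiff.1 hy).2 (Finset.mem_filter.2 ⟨hyS, hc⟩)
                exact hno y hyS z hz'.1 hvy hz'.2 (hs _ _ h)
              · exact hScl z hz'.1 y (Finset.mem_sdiff.2 ⟨(Finset.mem_sdiff.1 hy).1, hyS⟩) h
            · obtain ⟨u, hu⟩ := hSne
              exact ⟨u, Finset.mem_sdiff.2 ⟨(Finset.mem_sdiff.1 hu).1,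
                fun hc => (Finset.mem_sdiff.1 hu).2 (hTS hc)⟩⟩
          have hle := hmin T hPT
          obtain ⟨y, hy, hvy⟩ := h1
          have : T.card < S.card := by
            apply Finset.card_lt_card
            refine ⟨hTS, fun hc => ?_⟩
            exact (Finset.mem_filter.1 (hc hy)).2 hvy
          omega
        obtain ⟨y, hy, z, hz, hvy, hvz, hyz⟩ := hedge
        have hwD := (Finset.mem_sdiff.1 hw).1
        refine h4 w (Finset.mem_insert_of_mem hwD) v (Finset.mem_insert_self _ _)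
          y (Finset.mem_insert_of_mem (hSD hy)) z (Finset.mem_insert_of_mem (hSD hz))
          ⟨hs _ _ hvw, hvy, hyz, ?_, ?_, hvz⟩
        · intro h
          exact hScl y hy w hw (hs _ _ h)
        · intro h
          exact hScl z hz w hw (hs _ _ h)
      · push Not at h2
        refine ⟨D \ S, Finset.sdiff_subset.trans (Finset.subset_insert _ _), hSne, ?_, Or.inl ?_⟩
        · refine ⟨v, Finset.mem_sdiff.2 ⟨Finset.mem_insert_self _ _, fun hc => ?_⟩⟩
          exact hv (Finset.mem_sdiff.1 hc).1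
        · intro x hx y hy h
          rw [Finset.mem_sdiff, Finset.mem_insert] at hy
          rcases hy.1 with h' | h'
          · subst h'
            exact h2 x hx (hs _ _ h)
          · have hyS : y ∈ S := by
              by_contra hc
              exact hy.2 (Finset.mem_sdiff.2 ⟨h', hc⟩)
            exact hScl y hyS x hx (hs _ _ h)
    · push Not at h1
      refine ⟨S, hSD.trans (Finset.subset_insert _ _), ⟨x0, hx0S⟩, ?_, Or.inl ?_⟩
      · refine ⟨v, Finset.mem_sdiff.2 ⟨Finset.mem_insert_self _ _, fun hc => hv (hSD hc)⟩⟩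
      · intro x hx y hy h
        rw [Finset.mem_sdiff, Finset.mem_insert] at hy
        rcases hy.1 with h' | h'
        · subst h'
          exact h1 x hx (hs _ _ h)
        · exact hScl x hx y (Finset.mem_sdiff.2 ⟨h', hy.2⟩) h

/-- Seinsche's theorem. -/
theorem seinsche (A : V → V → Prop) (hs : ∀ x y, A x y → A y x) (D : Finset V)
    (h4 : ∀ a ∈ D, ∀ b ∈ D, ∀ c ∈ D, ∀ d ∈ D,
      ¬ (A a b ∧ A b c ∧ A c d ∧ ¬ A a c ∧ ¬ A a d ∧ ¬ A b d))
    (hD : 2 ≤ D.card) :
    ∃ S ⊆ D, S.Nonempty ∧ (D \ S).Nonempty ∧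
      ((∀ x ∈ S, ∀ y ∈ D \ S, ¬ A x y) ∨ (∀ x ∈ S, ∀ y ∈ D \ S, A x y)) := by
  classical
  induction D using Finset.induction_on with
  | empty => simp at hD
  | @insert v D hv ih =>
    rw [Finset.card_insert_of_notMem hv] at hD
    by_cases hc : 2 ≤ D.card
    · have h4' : ∀ a ∈ D, ∀ b ∈ D, ∀ c ∈ D, ∀ d ∈ D,
          ¬ (A a b ∧ A b c ∧ A c d ∧ ¬ A a c ∧ ¬ A a d ∧ ¬ A b d) :=
        fun a ha b hb c hc d hd => h4 a (Finset.mem_insert_of_mem ha) b
          (Finset.mem_insert_of_mem hb) c (Finset.mem_insert_of_mem hc) d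
          (Finset.mem_insert_of_mem hd)
      obtain ⟨S, hS, h1, h2, h3⟩ := ih h4' hc
      rcases h3 with h3 | h3
      · exact step A hs D v hv h4 S hS h1 h2 h3
      · have := step (fun x y => ¬ A x y) (fun x y h h' => h (hs _ _ h')) D v hv
          (by
            intro a ha b hb c hc d hd hh
            simp only [not_not] at hh
            obtain ⟨e1, e2, e3, e4, e5, e6⟩ := hh
            exact h4 c hc a ha d hd b hb
              ⟨hs _ _ e4, e5, hs _ _ e6, e3, fun h => e2 (hs _ _ h), e1⟩)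
          S hS h1 h2 (by
            intro x hx y hy
            simpa using h3 x hx y hy)
        obtain ⟨T, hT, g1, g2, g3⟩ := this
        refine ⟨T, hT, g1, g2, ?_⟩
        rcases g3 with g3 | g3
        · right
          intro x hx y hy
          simpa using g3 x hx y hy
        · left
          exact g3
    · -- D has exactly one element
      have h1 : D.card = 1 := by omega
      obtain ⟨u, hu⟩ := Finset.card_eq_one.1 h1
      subst hu
      have hvu : v ≠ u := by simpa using hv
      refine ⟨{v}, by simp, by simp, ⟨u, ?_⟩, ?_⟩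
      · rw [Finset.mem_sdiff]
        simp [hvu.symm]
      · by_cases h : A v u
        · right
          intro x hx y hy
          rw [Finset.mem_singleton] at hx
          rw [Finset.mem_sdiff, Finset.mem_insert, Finset.mem_singleton, Finset.mem_singleton] at hy
          rcases hy with ⟨hy1, hy2⟩
          rcases hy1 with h' | h'
          · exact absurd h' hy2
          · rw [hx, h']; exact h
        · left
          intro x hx y hy
          rw [Finset.mem_singleton] at hx
          rw [Finset.mem_sdiff, Finset.mem_insert, Finset.mem_singleton, Finset.mem_singleton] at hy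
          rcases hy with ⟨hy1, hy2⟩
          rcases hy1 with h' | h'
          · exact absurd h' hy2
          · rw [hx, h']; exact h

/-- A `P4`-free relation on a set with at least two points has twins. -/
theorem twins (A : V → V → Prop) (hs : ∀ x y, A x y → A y x) (D : Finset V)
    (h4 : ∀ a ∈ D, ∀ b ∈ D, ∀ c ∈ D, ∀ d ∈ D,
      ¬ (A a b ∧ A b c ∧ A c d ∧ ¬ A a c ∧ ¬ A a d ∧ ¬ A b d))
    (hD : 2 ≤ D.card) :
    ∃ x ∈ D, ∃ y ∈ D, x ≠ y ∧ ∀ z ∈ D, z ≠ x → z ≠ y → (A x z ↔ A y z) := by
  classical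
  induction hn : D.card using Nat.strong_induction_on generalizing D with
  | _ n ih =>
  obtain ⟨S, hS, h1, h2, h3⟩ := seinsche A hs D h4 hD
  have key : ∀ T : Finset V, T ⊆ D → T.card < D.card → 2 ≤ T.card →
      ((∀ x ∈ T, ∀ y ∈ D \ T, ¬ A x y) ∨ (∀ x ∈ T, ∀ y ∈ D \ T, A x y)) →
      ∃ x ∈ D, ∃ y ∈ D, x ≠ y ∧ ∀ z ∈ D, z ≠ x → z ≠ y → (A x z ↔ A y z) := by
    intro T hT hlt h2T hh
    obtain ⟨x, hx, y, hy, hxy, hz⟩ := ih T.card (by omega) T
      (fun a ha b hb c hc d hd => h4 a (hT ha) b (hT hb) c (hT hc) d (hT hd)) h2T rfl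
    refine ⟨x, hT hx, y, hT hy, hxy, fun z hzD hzx hzy => ?_⟩
    by_cases hzT : z ∈ T
    · exact hz z hzT hzx hzy
    · have hzD' : z ∈ D \ T := Finset.mem_sdiff.2 ⟨hzD, hzT⟩
      rcases hh with hh | hh
      · exact iff_of_false (hh x hx z hzD') (hh y hy z hzD')
      · exact iff_of_true (hh x hx z hzD') (hh y hy z hzD')
  have hcard : S.card + (D \ S).card = D.card := by
    rw [Finset.card_sdiff_of_subset hS]
    have := Finset.card_le_card hS
    omega
  have hp1 := h1.card_pos
  have hp2 := h2.card_pos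
  have hDS : D \ (D \ S) = S := Finset.sdiff_sdiff_eq_self hS
  by_cases hS2 : 2 ≤ S.card
  · exact key S hS (by omega) hS2 h3
  · by_cases hT2 : 2 ≤ (D \ S).card
    · refine key (D \ S) Finset.sdiff_subset (by omega) hT2 ?_
      rw [hDS]
      rcases h3 with h3 | h3
      · exact Or.inl fun x hx y hy h => h3 y hy x hx (hs _ _ h)
      · exact Or.inr fun x hx y hy => hs _ _ (h3 y hy x hx)
    · obtain ⟨x, hx⟩ := Finset.card_eq_one.1 (show S.card = 1 by omega)
      obtain ⟨y, hy⟩ := Finset.card_eq_one.1 (show (D \ S).card = 1 by omega)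
      have hxD : x ∈ D := hS (by rw [hx]; simp)
      have hyD' : y ∈ D \ S := by rw [hy]; simp
      have hyD : y ∈ D := (Finset.mem_sdiff.1 hyD').1
      have hyS : y ∉ S := (Finset.mem_sdiff.1 hyD').2
      refine ⟨x, hxD, y, hyD, ?_, ?_⟩
      · intro h
        apply hyS
        rw [hx, ← h]
        simp
      · intro z hz hzx hzy
        exfalso
        by_cases hzS : z ∈ S
        · rw [hx, Finset.mem_singleton] at hzS
          exact hzx hzS
        · have : z ∈ D \ S := Finset.mem_sdiff.2 ⟨hz, hzS⟩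
          rw [hy, Finset.mem_singleton] at this
          exact hzy this

end Pool.Agent.H33.CG
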